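import Mathlib
import Pool.Agent.X218.RN.Geo
import Pool.Agent.X218.RN.Dist

/-!
# MP_d3aff2_co, Q1 (negated form)

For every `n ≥ 4` the replacement number of `ℝⁿ` under the group of all isometries is infinite:
there is a two-colouring of `ℝⁿ` such that no colouring which differs from it at finitely many
points only is distinguishing.
-/

set_option linter.style.haveILetI false

open Quaternion Cardinal

namespace Pool.Agent.Results.MP_d3aff2_co.InfiniteReplacement

/-- A `k`-colouring `c` of a metric space is distinguishing (for the group of all isometries) if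
the identity is the only isometry `g` with `c (g x) = c x` for all `x`. -/
def Distinguishing {X : Type} [MetricSpace X] {k : ℕ} (c : X → Fin k) : Prop :=
  ∀ g : X ≃ᵢ X, (∀ x, c (g x) = c x) → g = IsometryEquiv.refl X

/-- The distinguishing number: the least `k` for which a distinguishing `k`-colouring exists. -/
noncomputable def distNumber (X : Type) [MetricSpace X] : ℕ :=
  sInf {k | ∃ c : X → Fin k, Distinguishing c}

/-- Every colouring with `distNumber X` colours can be made distinguishing by changing the colours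
of at most `m` points (within the same palette), i.e. the replacement number is at most `m`. -/
def ReplacementAtMost (X : Type) [MetricSpace X] (m : ℕ) : Prop :=
  ∀ c : X → Fin (distNumber X), ∃ c' : X → Fin (distNumber X),
    {x | c' x ≠ c x}.Finite ∧ {x | c' x ≠ c x}.ncard ≤ m ∧ Distinguishing c'

/-- The distinguishing number of `ℝⁿ`, `n ≥ 2`, is two. -/
theorem distNumber_eq (n : ℕ) (hn : 2 ≤ n) : distNumber (EuclideanSpace ℝ (Fin n)) = 2 := by
  classical
  have h2 : 2 ∈ {k | ∃ c : EuclideanSpace ℝ (Fin n) → Fin k, Distinguishing c} := by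
    refine ⟨fun x => if x ∈ Set.range (Pool.Agent.X218.RN.pt n) then 1 else 0, fun g hg => ?_⟩
    have h3 := Pool.Agent.X218.RN.rigid n hn g (fun x => by
      have h4 := hg x
      by_cases h5 : g x ∈ Set.range (Pool.Agent.X218.RN.pt n) <;>
        by_cases h6 : x ∈ Set.range (Pool.Agent.X218.RN.pt n) <;>
        simp [h5, h6] at h4 ⊢)
    ext x : 1
    exact h3 x
  refine le_antisymm (Nat.sInf_le h2) ?_
  refine le_csInf ⟨2, h2⟩ ?_
  rintro k ⟨c, hc⟩
  by_contra hk
  push Not at hk
  have h0 : (0 : Fin n → ℝ) = 0 := rfl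
  interval_cases k
  · exact (c 0).elim0
  · have h3 := hc (IsometryEquiv.neg _) (fun x => Subsingleton.elim _ _)
    have h4 := congrArg (fun g : EuclideanSpace ℝ (Fin n) ≃ᵢ EuclideanSpace ℝ (Fin n) =>
      g (EuclideanSpace.single ⟨0, by omega⟩ 1)) h3
    have h5 : -(EuclideanSpace.single (⟨0, by omega⟩ : Fin n) (1 : ℝ)) =
        EuclideanSpace.single ⟨0, by omega⟩ 1 := h4
    have h6 := congrArg (fun v : EuclideanSpace ℝ (Fin n) => v ⟨0, by omega⟩) h5
    simp at h6
    linarith

/-- The colouring that cannot be repaired. -/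
theorem exists_bad (n : ℕ) (hn : 4 ≤ n) : ∃ c : EuclideanSpace ℝ (Fin n) → Fin 2,
    ∀ c' : EuclideanSpace ℝ (Fin n) → Fin 2, {x | c' x ≠ c x}.Finite → ¬ Distinguishing c' := by
  obtain ⟨m, rfl⟩ := Nat.exists_eq_add_of_le hn
  have hd : Module.finrank ℝ (Pool.Agent.X218.RN.W m) = 4 + m := by
    rw [LinearEquiv.finrank_eq (WithLp.linearEquiv 2 ℝ _), Module.finrank_prod,
      Quaternion.finrank_eq_four, finrank_euclideanSpace_fin]
  let Θ : EuclideanSpace ℝ (Fin (4 + m)) ≃ᵢ Pool.Agent.X218.RN.W m :=
    ((stdOrthonormalBasis ℝ (Pool.Agent.X218.RN.W m)).reindex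
      (finCongr hd)).repr.symm.toIsometryEquiv
  have hX : #(EuclideanSpace ℝ (Fin (4 + m))) ≤ 𝔠 := by
    have h1 : #(EuclideanSpace ℝ (Fin (4 + m))) = #(Fin (4 + m) → ℝ) :=
      Cardinal.mk_congr (WithLp.equiv 2 _)
    rw [h1, ← Cardinal.power_def, Cardinal.mk_real]
    exact (Cardinal.power_le_power_left Cardinal.continuum_ne_zero
      (Cardinal.mk_le_aleph0)).trans (by rw [Cardinal.continuum_power_aleph0])
  obtain ⟨c, hc⟩ := Pool.Agent.X218.RN.bad_colouring Θ hX
  refine ⟨c, fun c' hfin hdist => ?_⟩
  obtain ⟨g, hg, x, hx⟩ := hc c' hfin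
  have := hdist g hg
  rw [this] at hx
  exact hx rfl

/-- **MP_d3aff2_co, Q1 (negated form).** For every `n ≥ 4`, the distinguishing number of `ℝⁿ` is
two and there is a two-colouring of `ℝⁿ` such that every two-colouring that differs from it at
finitely many points only is preserved by some isometry other than the identity. In particular
the replacement number of `ℝⁿ` is infinite for every `n ≥ 4`. -/
theorem result (n : ℕ) (hn : 4 ≤ n) :
    distNumber (EuclideanSpace ℝ (Fin n)) = 2 ∧
    (∃ c : EuclideanSpace ℝ (Fin n) → Fin 2, ∀ c' : EuclideanSpace ℝ (Fin n) → Fin 2,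
      {x | c' x ≠ c x}.Finite → ¬ Distinguishing c') ∧
    ∀ m : ℕ, ¬ ReplacementAtMost (EuclideanSpace ℝ (Fin n)) m := by
  have h2 := distNumber_eq n (by omega)
  refine ⟨h2, exists_bad n hn, fun m hm => ?_⟩
  obtain ⟨c, hc⟩ := exists_bad n hn
  unfold ReplacementAtMost at hm
  rw [h2] at hm
  obtain ⟨c', h3, -, h4⟩ := hm c
  exact hc c' h3 h4

end Pool.Agent.Results.MP_d3aff2_co.InfiniteReplacement
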